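import Mathlib
import Pool.Agent.H26.EP.Stm
import Pool.Agent.H27.SU.GLdef

/-!
# Definitions for the statement of `SparseExceptions` (MP_cda23d_nt)
-/

set_option autoImplicit false

namespace Pool.Agent.H8.SU

open Pool.Agent.H27.SU Pool.Agent.H26.EP

/-- the rational numbers `j` of height at most `X` which are the `j`-invariant of an elliptic curve `E/ℚ` with a nonsplit
prime `p` such that `P ≤ p ≤ Y` -/
def Between (P : ℕ) (Y X : ℝ) : Set ℚ :=
  {j | height j ≤ X ∧ ∃ (E : WeierstrassCurve ℚ) (_ : E.IsElliptic), E.j = j ∧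
    ∃ (p : ℕ) (_ : Fact p.Prime), P ≤ p ∧ (p : ℝ) ≤ Y ∧ InNonsplitNormaliser E p}

/-- the rational numbers `j` of height at most `X` which are the `j`-invariant of an elliptic curve `E/ℚ` without complex
multiplication with a nonsplit prime `p ≥ P` -/
def Exceptions (P : ℕ) (X : ℝ) : Set ℚ :=
  {j | height j ≤ X ∧ ∃ (E : WeierstrassCurve ℚ) (_ : E.IsElliptic), E.j = j ∧ NoComplexMult E ∧
    ∃ (p : ℕ) (_ : Fact p.Prime), P ≤ p ∧ InNonsplitNormaliser E p}

/-- `S` is finite and has at most `B` elements -/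
def AtMost (S : Set ℚ) (B : ℝ) : Prop := S.Finite ∧ (S.ncard : ℝ) ≤ B

end Pool.Agent.H8.SU
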