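import Mathlib
import Pool.Agent.H8.SU.Stm
import Pool.Agent.H26.EP.Car
import Pool.Agent.H85.SU.Big
import Pool.Agent.H89.SP.A2

/-!
# THEOREM SU: the two parts in the form of the hand-in (exponent `1/3`, all nonsplit primes `p ≥ 7`)
-/

set_option autoImplicit false

namespace Pool.Agent.H8.SU

open WeierstrassCurve Pool.Agent.H27.SU Pool.Agent.H58.RG Pool.Agent.H89.EP Pool.Agent.H26.EP Pool.Agent.H85.E2
  Pool.Agent.H85.SU
open scoped Classical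

/-- a rational `j` of height `≤ X` with a nonsplit prime `p > X^(1/2000)`, `p ≥ 29` -/
def BC (X : ℝ) : Set ℚ :=
  {j : ℚ | |(j.num : ℝ)| ≤ X ∧ (j.den : ℝ) ≤ X ∧ j ≠ 0 ∧ j ≠ 1728 ∧
    ∃ (E : WeierstrassCurve ℚ) (_ : E.IsElliptic), NoCM E ∧ E.j = j ∧
      ∃ (p : ℕ) (_ : Fact p.Prime), X ^ ((1 : ℝ) / 2000) < p ∧ InNonsplitNormaliser E p}

theorem big7 : ∃ C : ℝ, 0 < C ∧ ∀ (X : ℝ) (_ : 2 ≤ X), ((BC X).ncard : ℝ) ≤ C * X ^ ((1 : ℝ) / 3) := by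
  obtain ⟨D, hD⟩ : ∃ D : ℕ, D = ⌊36 * Real.exp 207⌋₊ := ⟨_, rfl⟩
  obtain ⟨X0, hX0⟩ : ∃ X0 : ℝ, X0 = 32768 ^ 2000 := ⟨_, rfl⟩
  obtain ⟨K, hK⟩ : ∃ K : ℕ, K = {j : ℚ | |(j.num : ℝ)| ≤ X0 ∧ (j.den : ℝ) ≤ X0}.ncard := ⟨_, rfl⟩
  refine ⟨2 * D + K + 1, by positivity, fun X hX => ?_⟩
  have hX1 : 1 ≤ X := by linarith
  have hX00 : 0 ≤ X := by linarith
  have hpow : (1 : ℝ) ≤ X ^ ((1 : ℝ) / 3) := Real.one_le_rpow hX1 (by norm_num)
  rcases le_or_gt X X0 with hle | hgt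
  · have h1 : (BC X).ncard ≤ K := by
      rw [hK]
      refine Set.ncard_le_ncard ?_ (fin_height X0)
      rintro j ⟨h1, h2, -⟩
      exact ⟨h1.trans hle, h2.trans hle⟩
    have h2 : ((BC X).ncard : ℝ) ≤ K := by exact_mod_cast h1
    have h3 : (0 : ℝ) ≤ D := Nat.cast_nonneg _
    have h4 : (0 : ℝ) ≤ K := Nat.cast_nonneg _
    nlinarith
  · have hY : (32768 : ℝ) < X ^ ((1 : ℝ) / 2000) := by
      have h1 : (32768 : ℝ) = X0 ^ ((1 : ℝ) / 2000) := by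
        rw [hX0, ← Real.rpow_natCast, ← Real.rpow_mul (by norm_num)]
        norm_num
      rw [h1]
      exact Real.rpow_lt_rpow (by rw [hX0]; positivity) hgt (by norm_num)
    have hsub : BC X ⊆ {j : ℚ | |(j.num : ℝ)| ≤ X ∧ j.den = 1 ∧ ∃ d N : ℕ, 0 < d ∧ d ≤ D ∧ 0 < N ∧
        j.num.natAbs = d * N ^ 3} := by
      rintro j ⟨h1, h2, hj0, hj1, E, i, hCM, rfl, p, hp, hpX, hE⟩
      have hp15R : (32768 : ℝ) < p := hY.trans hpX
      have hp15 : 32768 ≤ p := by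
        have : (32768 : ℕ) < p := by exact_mod_cast hp15R
        omega
      have h2p := lt_two_pow hX1 hp15 hpX
      obtain ⟨d, N, hd0, hN0, hdN, hd⟩ := cube_part E hj0 p (by omega) hE
      refine ⟨h1, den_one E hj0 hj1 p (by omega) hE (lt_of_le_of_lt h2 h2p), d, N, hd0, ?_, hN0, hdN⟩
      have h3 := e2_three E hCM hj0 hj1 p (by omega) hE
      have hHX : HH E.j ≤ X := max_le h1 h2
      have hH1 := one_le_HH E.j
      have hlogH : Real.log (HH E.j) ≤ p * Real.log 2 := by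
        rw [← Real.log_pow]
        exact Real.log_le_log (by linarith) (hHX.trans h2p.le)
      have h4 : Real.log (HH E.j) / (p - 9) ≤ 1 := by
        rw [div_le_one (by linarith)]
        have := Real.log_two_lt_d9
        nlinarith
      have hprime : ∀ ℓ ∈ RungeSet E.j p, ℓ.Prime := fun ℓ hℓ =>
        Nat.prime_of_mem_primeFactors (Finset.filter_subset _ _ hℓ)
      have hpart1 := part_pos E.j _ hprime
      have hp0 : (0 : ℝ) < p := by linarith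
      have h5 : Real.log (part E.j (RungeSet E.j p) * (p : ℝ) ^ (padicValNat p E.j.num.natAbs - 3)) ≤ 207 := by
        rw [Real.log_mul (by linarith) (by positivity), Real.log_pow]
        linarith
      have h6 : part E.j (RungeSet E.j p) * (p : ℝ) ^ (padicValNat p E.j.num.natAbs - 3) ≤ Real.exp 207 := by
        rw [← Real.log_le_iff_le_exp (mul_pos (by linarith) (by positivity))]
        exact h5
      rw [hD]
      refine Nat.le_floor (hd.trans ?_)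
      exact mul_le_mul_of_nonneg_left h6 (by norm_num)
    have hfin : {j : ℚ | |(j.num : ℝ)| ≤ X ∧ j.den = 1 ∧ ∃ d N : ℕ, 0 < d ∧ d ≤ D ∧ 0 < N ∧
        j.num.natAbs = d * N ^ 3}.Finite := by
      refine (fin_height X).subset ?_
      rintro j ⟨h1, h2, -⟩
      refine ⟨h1, ?_⟩
      rw [h2]
      simpa using hX1
    have h1 := Set.ncard_le_ncard hsub hfin
    have h2 := count_cubes D X hX1
    have h3 : ((BC X).ncard : ℝ) ≤ 2 * D * X ^ ((1 : ℝ) / 3) := le_trans (by exact_mod_cast h1) h2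
    have h4 : (0 : ℝ) ≤ K := Nat.cast_nonneg _
    nlinarith

theorem height_le {j : ℚ} {X : ℝ} (h : height j ≤ X) : |(j.num : ℝ)| ≤ X ∧ (j.den : ℝ) ≤ X :=
  ⟨(le_max_left _ _).trans h, (le_max_right _ _).trans h⟩

theorem fin_of {S : Set ℚ} {X : ℝ} (h : ∀ j ∈ S, height j ≤ X) : S.Finite :=
  (fin_height X).subset fun j hj => height_le (h j hj)

theorem between_sub (P : ℕ) (Y X : ℝ) : Between P Y X ⊆
    {j : ℚ | ∃ (p : ℕ) (_ : Fact p.Prime), P ≤ p ∧ (p : ℝ) ≤ Y ∧ j ∈ Pool.Agent.H89.SP.SS p X} ∪ {0, 1728} := by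
  rintro j ⟨h, E, i, hEj, p, hp, h1, h2, h3⟩
  by_cases hj0 : j = 0
  · exact Or.inr (Or.inl hj0)
  by_cases hj1 : j = 1728
  · exact Or.inr (Or.inr hj1)
  exact Or.inl ⟨p, hp, h1, h2, hj0, hj1, (height_le h).1, (height_le h).2, E, i, hEj, h3⟩

theorem two_card : (({0, 1728} : Set ℚ).ncard : ℝ) = 2 := by
  rw [Set.ncard_pair (by norm_num)]
  norm_num

theorem part_one : ∃ C : ℝ, 0 < C ∧ ∀ (P : ℕ) (X Y : ℝ), 7 ≤ P → 2 ≤ X → 1 ≤ Y →
    AtMost (Between P Y X) (C * Y ^ 7 * Real.log X * X ^ ((9 : ℝ) / (P * (P - 1)))) := by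
  obtain ⟨C, hC, h⟩ := Pool.Agent.H89.SP.range
  refine ⟨C + 4, by linarith, fun P X Y hP hX hY => ⟨fin_of fun j hj => hj.1, ?_⟩⟩
  have hX1 : 1 ≤ X := by linarith
  have hX0 : 0 < X := by linarith
  have hfin : ({j : ℚ | ∃ (p : ℕ) (_ : Fact p.Prime), P ≤ p ∧ (p : ℝ) ≤ Y ∧ j ∈ Pool.Agent.H89.SP.SS p X}).Finite :=
    (fin_height X).subset fun j ⟨_, _, _, _, h1⟩ => ⟨h1.2.2.1, h1.2.2.2.1⟩
  have h1 := Set.ncard_le_ncard (between_sub P Y X) (hfin.union (Set.toFinite _))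
  have h2 := Set.ncard_union_le {j : ℚ | ∃ (p : ℕ) (_ : Fact p.Prime), P ≤ p ∧ (p : ℝ) ≤ Y ∧
    j ∈ Pool.Agent.H89.SP.SS p X} {0, 1728}
  have h3 : ((Between P Y X).ncard : ℝ) ≤ ({j : ℚ | ∃ (p : ℕ) (_ : Fact p.Prime), P ≤ p ∧ (p : ℝ) ≤ Y ∧
      j ∈ Pool.Agent.H89.SP.SS p X}).ncard + (({0, 1728} : Set ℚ).ncard : ℝ) := by
    exact_mod_cast h1.trans h2
  rw [two_card] at h3
  have h4 := h P hP X Y hX hY
  have h5 : (1 : ℝ) ≤ Y ^ 7 := one_le_pow₀ hY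
  have h6 : (1 / 2 : ℝ) ≤ Real.log X := by
    have := Real.log_le_log (by norm_num) hX
    have := Real.log_two_gt_d9
    linarith
  have hP7 : (7 : ℝ) ≤ P := by exact_mod_cast hP
  have h7 : (1 : ℝ) ≤ X ^ ((9 : ℝ) / (P * (P - 1))) :=
    Real.one_le_rpow hX1 (div_nonneg (by norm_num) (mul_nonneg (by linarith) (by linarith)))
  have h8 : (1 / 2 : ℝ) ≤ Y ^ 7 * Real.log X * X ^ ((9 : ℝ) / (P * (P - 1))) := by
    have h9 : (1 / 2 : ℝ) ≤ Y ^ 7 * Real.log X := by nlinarith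
    nlinarith
  have h9 : (C + 4) * Y ^ 7 * Real.log X * X ^ ((9 : ℝ) / (P * (P - 1))) =
      C * Y ^ 7 * Real.log X * X ^ ((9 : ℝ) / (P * (P - 1))) +
        4 * (Y ^ 7 * Real.log X * X ^ ((9 : ℝ) / (P * (P - 1)))) := by ring
  rw [h9]
  linarith

theorem part_two : ∃ C : ℝ, 0 < C ∧ ∀ (X : ℝ), 2 ≤ X → AtMost (Exceptions 7 X) (C * X ^ ((1 : ℝ) / 3)) := by
  obtain ⟨C1, hC1, h1⟩ := part_one
  obtain ⟨C2, hC2, h2⟩ := big7
  refine ⟨100 * C1 + C2 + 2, by linarith, fun X hX => ⟨fin_of fun j hj => hj.1, ?_⟩⟩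
  have hX1 : 1 ≤ X := by linarith
  have hX0 : 0 < X := by linarith
  have hsub : Exceptions 7 X ⊆ Between 7 (X ^ ((1 : ℝ) / 2000)) X ∪ (BC X ∪ {0, 1728}) := by
    rintro j ⟨h, E, i, hEj, hCM, p, hp, h7, hE⟩
    by_cases hj0 : j = 0
    · exact Or.inr (Or.inr (Or.inl hj0))
    by_cases hj1 : j = 1728
    · exact Or.inr (Or.inr (Or.inr hj1))
    rcases le_or_gt (p : ℝ) (X ^ ((1 : ℝ) / 2000)) with hle | hgt
    · exact Or.inl ⟨h, E, i, hEj, p, hp, h7, hle, hE⟩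
    · exact Or.inr (Or.inl ⟨(height_le h).1, (height_le h).2, hj0, hj1, E, i, noCM_of hCM, hEj, p, hp, hgt, hE⟩)
  have hfB : (BC X).Finite := (fin_height X).subset fun j h => ⟨h.1, h.2.1⟩
  have hY : 1 ≤ X ^ ((1 : ℝ) / 2000) := Real.one_le_rpow hX1 (by norm_num)
  obtain ⟨hf1, hb1⟩ := h1 7 X (X ^ ((1 : ℝ) / 2000)) (by norm_num) hX hY
  have h3 := Set.ncard_le_ncard hsub (hf1.union (hfB.union (Set.toFinite _)))
  have h4 := Set.ncard_union_le (Between 7 (X ^ ((1 : ℝ) / 2000)) X) (BC X ∪ {0, 1728})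
  have h5 := Set.ncard_union_le (BC X) ({0, 1728} : Set ℚ)
  have h6 : ((Exceptions 7 X).ncard : ℝ) ≤ (Between 7 (X ^ ((1 : ℝ) / 2000)) X).ncard + ((BC X).ncard +
      (({0, 1728} : Set ℚ).ncard : ℝ)) := by
    exact_mod_cast h3.trans (h4.trans (by omega))
  rw [two_card] at h6
  have h7 := h2 X hX
  have h8 : (1 : ℝ) ≤ X ^ ((1 : ℝ) / 3) := Real.one_le_rpow hX1 (by norm_num)
  have h9 : (X ^ ((1 : ℝ) / 2000)) ^ 7 * Real.log X * X ^ ((9 : ℝ) / ((7 : ℕ) * ((7 : ℕ) - 1))) ≤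
      100 * X ^ ((1 : ℝ) / 3) := by
    have e1 : (X ^ ((1 : ℝ) / 2000)) ^ 7 = X ^ ((7 : ℝ) / 2000) := by
      rw [← Real.rpow_natCast, ← Real.rpow_mul hX0.le]
      norm_num
    have e2 : (9 : ℝ) / ((7 : ℕ) * ((7 : ℕ) - 1)) = 3 / 14 := by norm_num
    have e3 : Real.log X ≤ X ^ ((1 : ℝ) / 100) / (1 / 100) := Real.log_le_rpow_div hX0.le (by norm_num)
    rw [e1, e2]
    have e4 : X ^ ((7 : ℝ) / 2000) * Real.log X ≤ X ^ ((7 : ℝ) / 2000) * (X ^ ((1 : ℝ) / 100) / (1 / 100)) :=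
      mul_le_mul_of_nonneg_left e3 (Real.rpow_nonneg hX0.le _)
    refine (mul_le_mul_of_nonneg_right e4 (Real.rpow_nonneg hX0.le _)).trans ?_
    have e5 : X ^ ((7 : ℝ) / 2000) * (X ^ ((1 : ℝ) / 100) / (1 / 100)) * X ^ ((3 : ℝ) / 14) =
        100 * (X ^ ((7 : ℝ) / 2000) * X ^ ((1 : ℝ) / 100) * X ^ ((3 : ℝ) / 14)) := by ring
    rw [e5, ← Real.rpow_add hX0, ← Real.rpow_add hX0]
    exact mul_le_mul_of_nonneg_left (Real.rpow_le_rpow_of_exponent_le hX1 (by norm_num)) (by norm_num)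
  have h10 : C1 * (X ^ ((1 : ℝ) / 2000)) ^ 7 * Real.log X * X ^ ((9 : ℝ) / ((7 : ℕ) * ((7 : ℕ) - 1))) ≤
      C1 * (100 * X ^ ((1 : ℝ) / 3)) := by
    have := mul_le_mul_of_nonneg_left h9 hC1.le
    refine le_trans (le_of_eq ?_) this
    ring
  have h11 := hb1.trans h10
  nlinarith

end Pool.Agent.H8.SU
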