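import Mathlib
import Pool.Agent.H8.SU.Stm
import Pool.Agent.H26.EP.Car
import Pool.Agent.H85.SU.Cnt
import Pool.Agent.H89.SP.A2
import Pool.Agent.H89.NI.Main

/-!
# THEOREM SP + THEOREM NI: all nonsplit primes `p ≥ P`
-/

set_option autoImplicit false

namespace Pool.Agent.H8.SU

open WeierstrassCurve Pool.Agent.H27.SU Pool.Agent.H58.RG Pool.Agent.H89.EP Pool.Agent.H26.EP Pool.Agent.H85.SU
open scoped Classical

theorem height_le' {j : ℚ} {X : ℝ} (h : height j ≤ X) : |(j.num : ℝ)| ≤ X ∧ (j.den : ℝ) ≤ X :=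
  ⟨(le_max_left _ _).trans h, (le_max_right _ _).trans h⟩

theorem fin_of' {S : Set ℚ} {X : ℝ} (h : ∀ j ∈ S, height j ≤ X) : S.Finite :=
  (fin_height X).subset fun j hj => height_le' (h j hj)

theorem between_sub' (P : ℕ) (Y X : ℝ) : Between P Y X ⊆
    {j : ℚ | ∃ (p : ℕ) (_ : Fact p.Prime), P ≤ p ∧ (p : ℝ) ≤ Y ∧ j ∈ Pool.Agent.H89.SP.SS p X} ∪ {0, 1728} := by
  rintro j ⟨h, E, i, hEj, p, hp, h1, h2, h3⟩
  by_cases hj0 : j = 0
  · exact Or.inr (Or.inl hj0)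
  by_cases hj1 : j = 1728
  · exact Or.inr (Or.inr hj1)
  exact Or.inl ⟨p, hp, h1, h2, hj0, hj1, (height_le' h).1, (height_le' h).2, E, i, hEj, h3⟩

theorem two_card' : (({0, 1728} : Set ℚ).ncard : ℝ) = 2 := by
  rw [Set.ncard_pair (by norm_num)]
  norm_num

/-- nonsplit primes in a range -/
theorem in_range : ∃ C : ℝ, 0 < C ∧ ∀ (P : ℕ) (X Y : ℝ), 7 ≤ P → 2 ≤ X → 1 ≤ Y →
    AtMost (Between P Y X) (C * Y ^ 7 * Real.log X * X ^ ((9 : ℝ) / (P * (P - 1)))) := by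
  obtain ⟨C, hC, h⟩ := Pool.Agent.H89.SP.range
  refine ⟨C + 4, by linarith, fun P X Y hP hX hY => ⟨fin_of' fun j hj => hj.1, ?_⟩⟩
  have hX1 : 1 ≤ X := by linarith
  have hX0 : 0 < X := by linarith
  have hfin : ({j : ℚ | ∃ (p : ℕ) (_ : Fact p.Prime), P ≤ p ∧ (p : ℝ) ≤ Y ∧ j ∈ Pool.Agent.H89.SP.SS p X}).Finite :=
    (fin_height X).subset fun j ⟨_, _, _, _, h1⟩ => ⟨h1.2.2.1, h1.2.2.2.1⟩
  have h1 := Set.ncard_le_ncard (between_sub' P Y X) (hfin.union (Set.toFinite _))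
  have h2 := Set.ncard_union_le {j : ℚ | ∃ (p : ℕ) (_ : Fact p.Prime), P ≤ p ∧ (p : ℝ) ≤ Y ∧
    j ∈ Pool.Agent.H89.SP.SS p X} {0, 1728}
  have h3 : ((Between P Y X).ncard : ℝ) ≤ ({j : ℚ | ∃ (p : ℕ) (_ : Fact p.Prime), P ≤ p ∧ (p : ℝ) ≤ Y ∧
      j ∈ Pool.Agent.H89.SP.SS p X}).ncard + (({0, 1728} : Set ℚ).ncard : ℝ) := by
    exact_mod_cast h1.trans h2
  rw [two_card'] at h3
  have h4 := h P hP X Y hX hY
  have h5 : (1 : ℝ) ≤ Y ^ 7 := one_le_pow₀ hY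
  have h6 : (1 / 2 : ℝ) ≤ Real.log X := by
    have := Real.log_le_log (by norm_num) hX
    have := Real.log_two_gt_d9
    linarith
  have hP7 : (7 : ℝ) ≤ P := by exact_mod_cast hP
  have h7 : (1 : ℝ) ≤ X ^ ((9 : ℝ) / (P * (P - 1))) :=
    Real.one_le_rpow hX1 (div_nonneg (by norm_num) (mul_nonneg (by linarith) (by linarith)))
  have h8 : (1 / 2 : ℝ) ≤ Y ^ 7 * Real.log X * X ^ ((9 : ℝ) / (P * (P - 1))) := by
    have h9 : (1 / 2 : ℝ) ≤ Y ^ 7 * Real.log X := by nlinarith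
    nlinarith
  have h9 : (C + 4) * Y ^ 7 * Real.log X * X ^ ((9 : ℝ) / (P * (P - 1))) =
      C * Y ^ 7 * Real.log X * X ^ ((9 : ℝ) / (P * (P - 1))) +
        4 * (Y ^ 7 * Real.log X * X ^ ((9 : ℝ) / (P * (P - 1)))) := by ring
  rw [h9]
  linarith

/-- `√p ≤ C log p (L + log p)` implies `p ≤ (72 C)⁴ L⁴` for `L ≥ 1` -/
theorem p_le {C L : ℝ} (hC : 0 < C) (hL : 1 ≤ L) {p : ℝ} (hp : 1 ≤ p)
    (h : p ^ ((1 : ℝ) / 2) ≤ C * Real.log p * (L + Real.log p)) : p ≤ (72 * C * L) ^ 4 := by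
  have hp0 : 0 < p := by linarith
  obtain ⟨y, hy⟩ : ∃ y, y = p ^ ((1 : ℝ) / 8) := ⟨_, rfl⟩
  have hy1 : 1 ≤ y := hy ▸ Real.one_le_rpow hp (by norm_num)
  have hlog : Real.log p ≤ 8 * y := by
    have := Real.log_le_rpow_div hp0.le (show (0 : ℝ) < 1 / 8 by norm_num)
    rw [← hy] at this
    linarith
  have hlog0 : 0 ≤ Real.log p := Real.log_nonneg hp
  have hp2 : p ^ ((1 : ℝ) / 2) = y ^ 4 := by
    rw [hy, ← Real.rpow_natCast, ← Real.rpow_mul hp0.le]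
    norm_num
  have hp8 : p = y ^ 8 := by
    rw [hy, ← Real.rpow_natCast, ← Real.rpow_mul hp0.le]
    norm_num
  rw [hp2] at h
  have h1 : C * Real.log p * (L + Real.log p) ≤ C * (8 * y) * (9 * L * y) := by
    have h2 : L + Real.log p ≤ 9 * L * y := by nlinarith
    exact mul_le_mul (mul_le_mul_of_nonneg_left hlog hC.le) h2 (by linarith) (by positivity)
  have h3 : y ^ 4 ≤ (72 * C * L) * y ^ 2 := by
    refine (h.trans h1).trans (le_of_eq ?_)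
    ring
  have hy2 : 0 < y ^ 2 := by positivity
  have h4 : y ^ 2 ≤ 72 * C * L := by
    have h5 : y ^ 2 * y ^ 2 ≤ (72 * C * L) * y ^ 2 := by
      refine le_trans (le_of_eq ?_) h3
      ring
    exact le_of_mul_le_mul_right h5 hy2
  calc p = (y ^ 2) ^ 4 := by rw [hp8]; ring
    _ ≤ (72 * C * L) ^ 4 := pow_le_pow_left₀ hy2.le h4 4

theorem joint : ∃ C : ℝ, 0 < C ∧ ∀ (P : ℕ) (X : ℝ), 7 ≤ P → 3 ≤ X →
    AtMost (Exceptions P X) (C * Real.log X ^ 29 * X ^ ((9 : ℝ) / (P * (P - 1)))) := by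
  obtain ⟨C1, hC1, h1⟩ := in_range
  obtain ⟨C2, hC2, h2⟩ := Pool.Agent.H89.NI.ni
  obtain ⟨D, hD⟩ : ∃ D : ℝ, D = (72 * C2) ^ 4 + 1 := ⟨_, rfl⟩
  have hD1 : 1 ≤ D := by
    rw [hD]
    have : (0 : ℝ) ≤ (72 * C2) ^ 4 := by positivity
    linarith
  refine ⟨C1 * D ^ 7 + 4, by positivity, fun P X hP hX => ⟨fin_of' fun j hj => hj.1, ?_⟩⟩
  have hX1 : 1 ≤ X := by linarith
  have hX0 : 0 < X := by linarith
  have hlog : 1 ≤ Real.log X := by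
    rw [Real.le_log_iff_exp_le hX0]
    have := Real.exp_one_lt_d9
    linarith
  obtain ⟨Y, hY⟩ : ∃ Y : ℝ, Y = D * Real.log X ^ 4 := ⟨_, rfl⟩
  have hY1 : 1 ≤ Y := by
    rw [hY]
    have : (1 : ℝ) ≤ Real.log X ^ 4 := one_le_pow₀ hlog
    nlinarith
  have hsub : Exceptions P X ⊆ Between P Y X ∪ {0, 1728} := by
    rintro j ⟨h, E, i, hEj, hCM, p, hp, hPp, hE⟩
    by_cases hj0 : j = 0
    · exact Or.inr (Or.inl hj0)
    by_cases hj1 : j = 1728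
    · exact Or.inr (Or.inr hj1)
    refine Or.inl ⟨h, E, i, hEj, p, hp, hPp, ?_, hE⟩
    have h3 := h2 E (noCM_of hCM) (by rw [hEj]; exact hj0) (by rw [hEj]; exact hj1) p hE
    have hp1 : (1 : ℝ) ≤ p := by exact_mod_cast hp.out.one_lt.le
    have hHX : Real.log (HH E.j) ≤ Real.log X := by
      refine Real.log_le_log (lt_of_lt_of_le one_pos (one_le_HH E.j)) ?_
      rw [hEj]
      exact h
    have h4 : (p : ℝ) ^ ((1 : ℝ) / 2) ≤ C2 * Real.log p * (Real.log X + Real.log p) := by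
      refine h3.trans ?_
      exact mul_le_mul_of_nonneg_left (by linarith) (mul_nonneg hC2.le (Real.log_nonneg hp1))
    refine (p_le hC2 hlog hp1 h4).trans ?_
    rw [hY, hD, mul_pow]
    have : (0 : ℝ) ≤ Real.log X ^ 4 := by positivity
    nlinarith
  obtain ⟨hf1, hb1⟩ := h1 P X Y hP (by linarith) hY1
  have h3 := Set.ncard_le_ncard hsub (hf1.union (Set.toFinite _))
  have h4 := Set.ncard_union_le (Between P Y X) ({0, 1728} : Set ℚ)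
  have h6 : ((Exceptions P X).ncard : ℝ) ≤ (Between P Y X).ncard + (({0, 1728} : Set ℚ).ncard : ℝ) := by
    exact_mod_cast h3.trans h4
  rw [two_card'] at h6
  have hP7 : (7 : ℝ) ≤ P := by exact_mod_cast hP
  have h7 : (1 : ℝ) ≤ X ^ ((9 : ℝ) / (P * (P - 1))) :=
    Real.one_le_rpow hX1 (div_nonneg (by norm_num) (mul_nonneg (by linarith) (by linarith)))
  have h8 : (1 : ℝ) ≤ Real.log X ^ 29 := one_le_pow₀ hlog
  have h9 : C1 * Y ^ 7 * Real.log X * X ^ ((9 : ℝ) / (P * (P - 1))) =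
      C1 * D ^ 7 * Real.log X ^ 29 * X ^ ((9 : ℝ) / (P * (P - 1))) := by
    rw [hY]
    ring
  have h10 : (1 : ℝ) ≤ Real.log X ^ 29 * X ^ ((9 : ℝ) / (P * (P - 1))) := by nlinarith
  have h11 : (C1 * D ^ 7 + 4) * Real.log X ^ 29 * X ^ ((9 : ℝ) / (P * (P - 1))) =
      C1 * D ^ 7 * Real.log X ^ 29 * X ^ ((9 : ℝ) / (P * (P - 1))) +
        4 * (Real.log X ^ 29 * X ^ ((9 : ℝ) / (P * (P - 1)))) := by ring
  rw [h11, ← h9]
  linarith

end Pool.Agent.H8.SU
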